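import Mathlib
import Pool.Agent.H737R3.Cont.Main

set_option autoImplicit false

namespace Pool.Agent.Results.MP_22a066_ag.CharZero

open MvPolynomial

/-- the homogeneous ideal of the point of projective `n`-space with homogeneous coordinates `q` -/
noncomputable def pointIdeal {k : Type*} [Field k] {n : ℕ} (q : Fin (n + 1) → k) :
    Ideal (MvPolynomial (Fin (n + 1)) k) :=
  Ideal.span (Set.range (fun jl : Fin (n + 1) × Fin (n + 1) =>
    (X jl.1 * C (q jl.2) - X jl.2 * C (q jl.1) : MvPolynomial (Fin (n + 1)) k)))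

/-- **The Harbourne-Huneke containment in characteristic zero.** Let `k` be a field of
characteristic zero, `n ≥ 2`, `p 0, …, p (s-1)` points of projective `n`-space over `k` and
`w 0, …, w (s-1)` nonnegative integers. Then
`⋂ I(p i)^(t (w i + n - 1)) ⊆ M^t (⋂ I(p i)^(w i))^t` for every `t ≥ 1`, where `M` is the
ideal generated by the variables. (For `w i = m` this is the containment
`I^(t (m + n - 1)) ⊆ M^t (I^(m))^t` for the radical ideal `I` of the points.) -/
theorem result (k : Type*) [Field k] [CharZero k] (n : ℕ) (hn : 2 ≤ n) (s : ℕ) (hs : 0 < s)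
    (p : Fin s → Fin (n + 1) → k) (hp : ∀ i, p i ≠ 0) (w : Fin s → ℕ) (t : ℕ) (ht : 0 < t) :
    (⨅ i : Fin s, pointIdeal (p i) ^ (t * (w i + n - 1))) ≤
      (Ideal.span (Set.range (fun j : Fin (n + 1) => (X j : MvPolynomial (Fin (n + 1)) k)))) ^ t *
        (⨅ i : Fin s, pointIdeal (p i) ^ (w i)) ^ t := by
  have h1 : ∀ i, pointIdeal (p i) = Pool.Agent.H737R3.linI (p i) :=
    fun i => Pool.Agent.H737R3.span_eq_linI (hp i)
  simp only [h1]
  exact Pool.Agent.H737R3.Cont.cont hn hs ht p hp w

end Pool.Agent.Results.MP_22a066_ag.CharZero
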